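import Pool.Agent.Q207.Chain

open Cardinal Filter

namespace Pool.Agent.Results.MP_f21612_lc.Yes

/-- `I` is an ideal on `ω` (proper, closed under subsets and finite unions, containing the
finite sets). -/
structure IsIdeal (I : Set (Set ℕ)) : Prop where
  univ : Set.univ ∉ I
  fin : ∀ s : Set ℕ, s.Finite → s ∈ I
  down : ∀ s ∈ I, ∀ t : Set ℕ, t ⊆ s → t ∈ I
  union : ∀ s ∈ I, ∀ t ∈ I, s ∪ t ∈ I

/-- `I` is maximal under inclusion among the ideals on `ω`. -/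
def IsMaximalIdeal (I : Set (Set ℕ)) : Prop :=
  IsIdeal I ∧ ∀ J, IsIdeal J → I ⊆ J → J = I

/-- the cofinality of an ideal -/
noncomputable def cof (I : Set (Set ℕ)) : Cardinal :=
  sInf {κ | ∃ B : Set (Set ℕ), B ⊆ I ∧ #B = κ ∧ ∀ X ∈ I, ∃ Y ∈ B, X ⊆ Y}

/-- the relative cofinality `cof_J(I)` -/
noncomputable def relcof (J I : Set (Set ℕ)) : Cardinal :=
  sInf {κ | ∃ A : Set (Set ℕ), A ⊆ I ∧ #A = κ ∧ ∀ X ∈ I, ∃ Y ∈ A, X \ Y ∈ J}

end Pool.Agent.Results.MP_f21612_lc.Yes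

open Q207.Chain Pool.Agent.Results.MP_f21612_lc.Yes in
/-- In ZFC there are a maximal ideal `I` on `ω` of cofinality `𝔠` and an ideal `J ⊆ I` with
`cof_J(I) = ω₁`. -/
theorem Pool.Agent.Results.MP_f21612_lc.Yes.result :
    ∃ I J : Set (Set ℕ), IsMaximalIdeal I ∧ cof I = 𝔠 ∧ IsIdeal J ∧ J ⊆ I ∧ relcof J I = ℵ₁ := by
  obtain ⟨ψ, hψ⟩ := W1_inj
  obtain ⟨U, p, A, h1, h2, h3, h4⟩ := main_exists W1_Iio W1_bdd ψ hψ
  have hnoMax : ∀ a : W1, ∃ b, a < b := by
    intro a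
    obtain ⟨b, hb⟩ := W1_bdd {a} (Set.countable_singleton a)
    exact ⟨b, hb a rfl⟩
  have hne : ∀ a b : W1, ∃ c, a ≤ c ∧ b ≤ c := fun a b => ⟨max a b, le_max_left _ _,
    le_max_right _ _⟩
  obtain ⟨w0⟩ : Nonempty W1 := by
    obtain ⟨b, -⟩ := W1_bdd ∅ Set.countable_empty
    exact ⟨b⟩
  have hfinU : ∀ s : Set ℕ, s.Finite → s ∉ U := by
    intro s hs hsU
    obtain ⟨a, ha⟩ := h1 s hsU
    have h5 : sᶜ ∈ p a := h3 a hs.compl_mem_cofinite
    exact Ultrafilter.compl_notMem_iff.2 (ha a le_rfl) h5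
  have hcompl : ∀ X : Set ℕ, X ∉ U → ∃ a, ∀ b, a ≤ b → X ∉ p b := by
    intro X hX
    obtain ⟨a, ha⟩ := h1 Xᶜ (Ultrafilter.compl_mem_iff_notMem.2 hX)
    exact ⟨a, fun b hb => Ultrafilter.compl_mem_iff_notMem.1 (ha b hb)⟩
  have hAU : ∀ a, A a ∉ U := by
    intro a ha
    obtain ⟨b, hb⟩ := h1 _ ha
    obtain ⟨c, hc⟩ := hnoMax a
    have h5 := hb (max b c) (le_max_left _ _)
    rw [h2] at h5
    exact absurd (lt_of_lt_of_le hc (le_max_right b c)) (not_lt.2 h5)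
  have hI : IsIdeal {X : Set ℕ | X ∉ U} := by
    refine ⟨fun h => h univ_mem, hfinU, ?_, ?_⟩
    · intro s hs t hts ht
      exact hs (mem_of_superset ht hts)
    · intro s hs t ht hst
      rcases Ultrafilter.union_mem_iff.1 hst with h | h
      · exact hs h
      · exact ht h
  have hJ : IsIdeal {X : Set ℕ | ∀ b, X ∉ p b} := by
    refine ⟨fun h => h w0 univ_mem, ?_, ?_, ?_⟩
    · intro s hs b hb
      have h5 : sᶜ ∈ p b := h3 b hs.compl_mem_cofinite
      exact Ultrafilter.compl_notMem_iff.2 hb h5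
    · intro s hs t hts b ht
      exact hs b (mem_of_superset ht hts)
    · intro s hs t ht b hst
      rcases Ultrafilter.union_mem_iff.1 hst with h | h
      · exact hs b h
      · exact ht b h
  refine ⟨{X | X ∉ U}, {X | ∀ b, X ∉ p b}, ⟨hI, ?_⟩, ?_, hJ, ?_, ?_⟩
  · -- maximality
    intro K hK hIK
    refine subset_antisymm ?_ hIK
    intro X hX hXU
    have h5 : Xᶜ ∈ K := hIK (Ultrafilter.compl_notMem_iff.2 hXU)
    apply hK.univ
    have h6 := hK.union X hX _ h5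
    rwa [Set.union_compl_self] at h6
  · -- cofinality
    apply le_antisymm
    · have hI1 : #({X : Set ℕ | X ∉ U} : Set (Set ℕ)) ∈ {κ | ∃ B : Set (Set ℕ),
          B ⊆ {X : Set ℕ | X ∉ U} ∧ #B = κ ∧ ∀ X ∈ {X : Set ℕ | X ∉ U}, ∃ Y ∈ B, X ⊆ Y} :=
        ⟨_, subset_rfl, rfl, fun X hX => ⟨X, hX, subset_rfl⟩⟩
      refine (csInf_le' hI1).trans ?_
      refine (Cardinal.mk_set_le _).trans ?_
      rw [Cardinal.mk_set, Cardinal.mk_nat, Cardinal.two_power_aleph0]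
    · refine le_csInf ⟨_, _, subset_rfl, rfl, fun X hX => ⟨X, hX, subset_rfl⟩⟩ ?_
      rintro κ ⟨B, hB, rfl, hB'⟩
      have h5 := h4 (compl '' B) (by
        rintro _ ⟨s, hs, rfl⟩
        exact Ultrafilter.compl_mem_iff_notMem.2 (hB hs)) (by
        intro X hX
        obtain ⟨Y, hY, hXY⟩ := hB' Xᶜ (Ultrafilter.compl_notMem_iff.2 hX)
        exact ⟨Yᶜ, ⟨Y, hY, rfl⟩, Set.compl_subset_comm.1 hXY⟩)
      exact h5.trans Cardinal.mk_image_le
  · -- `J ⊆ I`
    intro X hX hXU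
    obtain ⟨a, ha⟩ := h1 X hXU
    exact hX a (ha a le_rfl)
  · -- relative cofinality
    have hmem : #(Set.range A) ∈ {κ | ∃ A' : Set (Set ℕ), A' ⊆ {X | X ∉ U} ∧ #A' = κ ∧
        ∀ X ∈ {X : Set ℕ | X ∉ U}, ∃ Y ∈ A', X \ Y ∈ {X : Set ℕ | ∀ b, X ∉ p b}} := by
      refine ⟨Set.range A, ?_, rfl, ?_⟩
      · rintro _ ⟨a, rfl⟩
        exact hAU a
      · intro X hX
        obtain ⟨a, ha⟩ := hcompl X hX
        refine ⟨A a, ⟨a, rfl⟩, ?_⟩
        intro b hb
        rcases le_total a b with h | h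
        · exact ha b h (mem_of_superset hb Set.sdiff_subset)
        · have h5 : A a ∈ p b := (h2 a b).2 h
          have h6 : (X \ A a) ∩ A a ∈ p b := inter_mem hb h5
          have h7 : (X \ A a) ∩ A a = ∅ := by
            ext x
            simp
          rw [h7] at h6
          exact (p b).empty_notMem h6
    apply le_antisymm
    · refine (csInf_le' hmem).trans ?_
      rw [← mk_W1]
      exact Cardinal.mk_range_le
    · refine le_csInf ⟨_, hmem⟩ ?_
      rintro κ ⟨A', hA', rfl, hA''⟩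
      by_contra hcon
      push Not at hcon
      rw [← Cardinal.succ_aleph0, Order.lt_succ_iff] at hcon
      have hcount : A'.Countable := Cardinal.le_aleph0_iff_set_countable.1 hcon
      have h5 : ∀ Y : Set ℕ, ∃ a, Y ∈ A' → ∀ b, a ≤ b → Y ∉ p b := by
        intro Y
        by_cases hY : Y ∈ A'
        · obtain ⟨a, ha⟩ := hcompl Y (hA' hY)
          exact ⟨a, fun _ => ha⟩
        · exact ⟨w0, fun h => absurd h hY⟩
      choose f hf using h5
      obtain ⟨a, ha⟩ := W1_bdd (f '' A') (hcount.image f)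
      obtain ⟨Y, hY, hY'⟩ := hA'' (A a) (hAU a)
      have h6 : A a ∈ p a := (h2 a a).2 le_rfl
      have h7 : Y ∉ p a := hf Y hY a (ha _ ⟨Y, hY, rfl⟩).le
      apply hY' a
      exact inter_mem h6 (Ultrafilter.compl_mem_iff_notMem.2 h7)
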